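import Pool.Agent.Helper78.JT.Goals2

set_option autoImplicit false

/-!
# Project JT (MP_34c247_lc), packet PJ5
-/

namespace Pool.Agent.Helper34.JT

open Pool.Agent.Helper78.DT Pool.Agent.Helper78.JT

theorem pj5 (hT : TljStmt) (h4 : Pj4Stmt) : Pj5Stmt := by
  intro c a e β ha hH
  obtain ⟨L1, hL1⟩ := h4 c a e β
  obtain ⟨hTa, hTM, -⟩ := hT a e
  obtain ⟨L2, hL2⟩ := hTM 1
  refine ⟨max 1 (max L1 L2), fun L hL r hr => ?_⟩
  have hLpos : 1 ≤ L := le_trans (le_max_left _ _) hL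
  have hLL1 : L1 ≤ L := le_trans (le_trans (le_max_left _ _) (le_max_right _ _)) hL
  have hLL2 : L2 ≤ L := le_trans (le_trans (le_max_right _ _) (le_max_right _ _)) hL
  have ht : 1 ≤ tj a e L := hL2 L hLL2
  obtain ⟨-, hK, -⟩ := hL1 L hLL1
  obtain ⟨-, hLlt, -, hrr⟩ := hTa L hLpos
  have hrL : r ≤ L := (hrr r hr).1
  generalize hK' : Kj c a β e L = K at hK ⊢
  have hsp : sj a e L = 2 ^ (tj a e L * (a + 1)) := rfl
  have hκ : κj a e L = (2 : ℝ) ^ tj a e L / 2 ^ (tj a e L * 2 ^ (a - 1)) := rfl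
  have hη : ηp a = 1 / (2 : ℝ) ^ (a - 1) := rfl
  rw [hsp, hκ, hη]
  generalize tj a e L = t at ht hLlt ⊢
  generalize bb a e = b at hLlt hH
  have h2 : (0 : ℝ) < 2 := by norm_num
  have h21 : (1 : ℝ) ≤ 2 := by norm_num
  have hHpos : (0 : ℝ) < (2 : ℝ) ^ (a - 1) := by positivity
  obtain ⟨H, hHdef⟩ : ∃ H : ℕ, H = 2 ^ (a - 1) := ⟨_, rfl⟩
  have hHr : ((H : ℕ) : ℝ) = (2 : ℝ) ^ (a - 1) := by rw [hHdef]; push_cast; ring
  rw [← hHdef] at hH ⊢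
  rw [← hHr] at hHpos ⊢
  -- the three powers
  have e1 : (2 / (1 / (H : ℝ))) ^ t = (2 : ℝ) ^ ((a : ℝ) * t) := by
    have : (2 / (1 / (H : ℝ))) = (2 : ℝ) ^ a := by
      rw [hHr]
      have hx : (2 : ℝ) ^ a = 2 * 2 ^ (a - 1) := by
        rw [← pow_succ']
        congr 1
        omega
      rw [hx]
      field_simp
    rw [this, ← pow_mul, ← Real.rpow_natCast]
    push_cast
    rfl
  have e2 : (2 : ℝ) ^ t / 2 ^ (t * H) = (2 : ℝ) ^ ((t : ℝ) - t * H) := by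
    rw [Real.rpow_sub h2, Real.rpow_natCast]
    congr 1
    rw [← Real.rpow_natCast]
    push_cast
    rfl
  have e3 : ((2 : ℝ) ^ t / 2 ^ (t * H)) ^ (1 - 1 / (H : ℝ)) ≤
      (2 : ℝ) ^ (-((t : ℝ) * (H - 2))) := by
    rw [e2, ← Real.rpow_mul h2.le]
    apply Real.rpow_le_rpow_of_exponent_le h21
    have ht0 : (0 : ℝ) ≤ t := Nat.cast_nonneg _
    have : ((t : ℝ) - t * H) * (1 - 1 / (H : ℝ)) = -((t : ℝ) * (H - 2)) - t / H := by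
      field_simp
      ring
    rw [this]
    have : (0 : ℝ) ≤ t / H := by positivity
    linarith
  have e4 : (((2 ^ (t * (a + 1)) : ℕ) : ℝ) + 1) ≤ (2 : ℝ) ^ (1 + (t : ℝ) * (a + 1)) := by
    have h0 : (1 : ℝ) ≤ (2 : ℝ) ^ (t * (a + 1)) := one_le_pow₀ h21
    have h1 : (2 : ℝ) ^ (1 + (t : ℝ) * (a + 1)) = 2 * 2 ^ (t * (a + 1)) := by
      rw [Real.rpow_add h2, Real.rpow_one, ← Real.rpow_natCast 2 (t * (a + 1))]
      push_cast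
      rfl
    rw [h1]
    push_cast
    linarith
  have hKr : (K : ℝ) ≤ (L : ℝ) ^ 2 := by exact_mod_cast hK
  have hrr' : (r : ℝ) ≤ (L : ℝ) := by exact_mod_cast hrL
  have hLr : (L : ℝ) ≤ (2 : ℝ) ^ (b * (t + 1)) := by exact_mod_cast hLlt.le
  have hL0 : (0 : ℝ) < L := by exact_mod_cast hLpos
  have hLc : (L : ℝ) ^ (c + 3) ≤ (2 : ℝ) ^ (((c : ℝ) + 3) * (b * (t + 1))) := by
    calc (L : ℝ) ^ (c + 3) ≤ ((2 : ℝ) ^ (b * (t + 1))) ^ (c + 3) :=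
          pow_le_pow_left₀ hL0.le hLr _
      _ = (2 : ℝ) ^ (((c : ℝ) + 3) * (b * (t + 1))) := by
          rw [← pow_mul, ← Real.rpow_natCast]
          congr 1
          push_cast
          ring
  have h64 : (64 : ℝ) = (2 : ℝ) ^ (6 : ℝ) := by
    rw [show (6 : ℝ) = ((6 : ℕ) : ℝ) by norm_num, Real.rpow_natCast]
    norm_num
  rw [e1]
  have hstep : (K : ℝ) * ((r : ℝ) * ((((2 ^ (t * (a + 1)) : ℕ) : ℝ) + 1) *
      (((2 : ℝ) ^ t / 2 ^ (t * H)) ^ (1 - 1 / (H : ℝ)) * (2 : ℝ) ^ ((a : ℝ) * t)))) ≤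
      (L : ℝ) ^ 2 * ((L : ℝ) * ((2 : ℝ) ^ (1 + (t : ℝ) * (a + 1)) *
        ((2 : ℝ) ^ (-((t : ℝ) * (H - 2))) * (2 : ℝ) ^ ((a : ℝ) * t)))) := by
    gcongr
  refine hstep.trans ?_
  rw [le_div_iff₀ (by positivity)]
  calc (L : ℝ) ^ 2 * ((L : ℝ) * ((2 : ℝ) ^ (1 + (t : ℝ) * (a + 1)) *
        ((2 : ℝ) ^ (-((t : ℝ) * (H - 2))) * (2 : ℝ) ^ ((a : ℝ) * t)))) * (64 * (L : ℝ) ^ c)
      = 64 * (L : ℝ) ^ (c + 3) * ((2 : ℝ) ^ (1 + (t : ℝ) * (a + 1)) *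
        ((2 : ℝ) ^ (-((t : ℝ) * (H - 2))) * (2 : ℝ) ^ ((a : ℝ) * t))) := by ring
    _ ≤ (2 : ℝ) ^ (6 : ℝ) * (2 : ℝ) ^ (((c : ℝ) + 3) * (b * (t + 1))) *
        ((2 : ℝ) ^ (1 + (t : ℝ) * (a + 1)) *
        ((2 : ℝ) ^ (-((t : ℝ) * (H - 2))) * (2 : ℝ) ^ ((a : ℝ) * t))) := by
        rw [← h64]
        gcongr
    _ = (2 : ℝ) ^ (6 + ((c : ℝ) + 3) * (b * (t + 1)) + (1 + (t : ℝ) * (a + 1) +
          (-((t : ℝ) * (H - 2)) + (a : ℝ) * t))) := by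
        rw [← Real.rpow_add h2, ← Real.rpow_add h2, ← Real.rpow_add h2, ← Real.rpow_add h2]
    _ ≤ 1 := by
        apply Real.rpow_le_one_of_one_le_of_nonpos h21
        have hHH : ((2 * a + 3 + 2 * (c + 3) * b + 7 : ℕ) : ℝ) ≤ (H : ℝ) := by
          exact_mod_cast hH
        push_cast at hHH
        have ht1 : (1 : ℝ) ≤ t := by exact_mod_cast ht
        have hm : (t : ℝ) * (2 * a + 3 + 2 * (c + 3) * b + 7) ≤ (t : ℝ) * H :=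
          mul_le_mul_of_nonneg_left hHH (by linarith)
        have hcc : (0 : ℝ) ≤ ((c : ℝ) + 3) * b := by positivity
        nlinarith [mul_nonneg hcc (sub_nonneg.mpr ht1)]

end Pool.Agent.Helper34.JT
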